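import Pool.Agent.Helper99.DP.Rt

/-!
# Deflated polygons: the final estimates
-/

set_option autoImplicit false
set_option linter.unusedVariables false

namespace Pool.Agent.Helper99.DP

open Finset Filter Topology Pool.Agent.N929.EG Pool.Agent.Helper99.AG
open TH966.AK hiding lst
open Pool.Agent.R965.HP
open scoped Classical

noncomputable section

/-- the weighted number of loops -/
def LL (q : ℝ) (m : ℕ) : ℝ := ∑ᶠ f ∈ {f : ZMod m → ℤ × ℤ | Lp m f}, q ^ are m f

/-- the bound inside the disc of convergence -/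
theorem LL_le {q r : ℝ} (hq : 0 < q) (hr : 0 < r)
    (hS : Summable fun j : ℕ => LL q (j + 4) / (2 * ((j + 4 : ℕ) : ℝ)) * r ^ (j + 4)) {m : ℕ}
    (hm : 4 ≤ m) : LL q m ≤ 2 * (m : ℝ) * (q⁻¹ * (r ^ m)⁻¹) := by
  have hL : ∀ m : ℕ, 1 ≤ m → WW q m ≤ LL q m := by
    intro m hm
    obtain ⟨n, rfl⟩ : ∃ n, m = n + 1 := ⟨m - 1, by omega⟩
    exact le_loops hq.le
  have hnn : ∀ j : ℕ, 0 ≤ LL q (j + 4) / (2 * ((j + 4 : ℕ) : ℝ)) * r ^ (j + 4) := by
    intro j
    have h1 := hL (j + 4) (by omega)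
    have h2 := WW_nonneg hq.le (j + 4)
    have h3 : 0 ≤ LL q (j + 4) := h2.trans h1
    positivity
  obtain ⟨B, hB⟩ : ∃ B : ℝ, B = ∑' j : ℕ, LL q (j + 4) / (2 * ((j + 4 : ℕ) : ℝ)) * r ^ (j + 4) :=
    ⟨_, rfl⟩
  have hB0 : 0 ≤ B := hB ▸ tsum_nonneg hnn
  have hW : ∀ m : ℕ, WW q m * r ^ m ≤ 2 * B * ((m : ℝ) + 1) := by
    intro m
    by_cases h4 : 4 ≤ m
    · obtain ⟨j, rfl⟩ : ∃ j, m = j + 4 := ⟨m - 4, by omega⟩
      have h1 := hS.le_tsum j fun i _ => hnn i
      rw [← hB] at h1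
      have h2 : (0 : ℝ) < ((j + 4 : ℕ) : ℝ) := by positivity
      have h3 : LL q (j + 4) * r ^ (j + 4) ≤ 2 * ((j + 4 : ℕ) : ℝ) * B := by
        have h5 := mul_le_mul_of_nonneg_left h1 (by positivity : (0 : ℝ) ≤ 2 * ((j + 4 : ℕ) : ℝ))
        refine le_trans (le_of_eq ?_) h5
        field_simp
      have h5 := mul_le_mul_of_nonneg_right (hL (j + 4) (by omega)) (pow_nonneg hr.le (j + 4))
      nlinarith
    · have h1 : CN m = ∅ := by
        rw [Finset.eq_empty_iff_forall_notMem]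
        intro w hw
        obtain ⟨h1, h2⟩ := mem_CN.1 hw
        have := h1.len
        omega
      unfold WW
      rw [h1, sum_empty, zero_mul]
      positivity
  have h1 := WW_le hq.le hr.le hW m
  obtain ⟨n, rfl⟩ : ∃ n, m = n + 1 := ⟨m - 1, by omega⟩
  have h2 := loops_le (n := n) (by omega) hq.le
  have hrm : 0 < r ^ (n + 1) := pow_pos hr _
  have h3 : WW q (n + 1) ≤ q⁻¹ * (r ^ (n + 1))⁻¹ := by
    rw [← mul_inv, ← one_div, le_div_iff₀ (mul_pos hq hrm)]
    linarith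
  refine h2.trans ?_
  push_cast
  exact mul_le_mul_of_nonneg_left h3 (by positivity)

/-- The estimates for the loops with `m` steps -/
theorem both {q r : ℝ} (hq : 0 < q) (hq1 : q < 1) (hr : 0 < r)
    (hS : Summable fun j : ℕ => LL q (j + 4) / (2 * ((j + 4 : ℕ) : ℝ)) * r ^ (j + 4)) {m : ℕ}
    (hm : 4 ≤ m) {P : ℝ} (hP : 0 < P)
    (hc : P ≤ (({f : ZMod m → ℤ × ℤ | Lp m f}.ncard : ℕ) : ℝ) / (2 * (m : ℝ))) :
    (∀ a : ℝ, (({f : ZMod m → ℤ × ℤ | Lp m f ∧ (are m f : ℝ) ≤ a}.ncard : ℕ) : ℝ) /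
      (({f : ZMod m → ℤ × ℤ | Lp m f}.ncard : ℕ) : ℝ) ≤
        Real.exp ((a + 1) * Real.log (1 / q) - m * Real.log r - Real.log P)) ∧
    Real.log P + m * Real.log r ≤ ((∑ᶠ f ∈ {f : ZMod m → ℤ × ℤ | Lp m f}, (are m f : ℝ)) /
      (({f : ZMod m → ℤ × ℤ | Lp m f}.ncard : ℕ) : ℝ) + 1) * Real.log (1 / q) := by
  have hLL := LL_le hq hr hS hm
  have hfin : {f : ZMod m → ℤ × ℤ | Lp m f}.Finite := by
    obtain ⟨n, rfl⟩ : ∃ n, m = n + 1 := ⟨m - 1, by omega⟩
    exact fin_loops n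
  obtain ⟨F, hF⟩ : ∃ F, F = hfin.toFinset := ⟨_, rfl⟩
  have hmF : ∀ f, f ∈ F ↔ Lp m f := fun f => by rw [hF, hfin.mem_toFinset]; rfl
  have eN : ({f : ZMod m → ℤ × ℤ | Lp m f}.ncard : ℕ) = F.card := by
    rw [hF, Set.ncard_eq_toFinset_card _ hfin]
  have eL : LL q m = ∑ f ∈ F, q ^ are m f := by
    unfold LL
    rw [finsum_mem_eq_finite_toFinset_sum _ hfin, hF]
  have eA : ∑ᶠ f ∈ {f : ZMod m → ℤ × ℤ | Lp m f}, (are m f : ℝ) = ∑ f ∈ F, (are m f : ℝ) := by
    rw [finsum_mem_eq_finite_toFinset_sum _ hfin, hF]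
  rw [eN] at hc ⊢
  rw [eA]
  obtain ⟨N, hN⟩ : ∃ N : ℝ, N = (F.card : ℝ) := ⟨_, rfl⟩
  rw [← hN] at hc ⊢
  have hm0 : (0 : ℝ) < m := by
    have : 0 < m := by omega
    exact_mod_cast this
  have hPN : P * (2 * (m : ℝ)) ≤ N := by
    rwa [le_div_iff₀ (by positivity)] at hc
  have hN0 : 0 < N := lt_of_lt_of_le (by positivity) hPN
  have hlq : 0 < Real.log (1 / q) := Real.log_pos (by rw [lt_div_iff₀ hq]; linarith)
  have hlq' : Real.log (1 / q) = -Real.log q := by rw [one_div, Real.log_inv]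
  have hrm : 0 < r ^ m := pow_pos hr _
  rw [eL] at hLL
  -- the right hand side
  have hR : q⁻¹ * (r ^ m)⁻¹ = Real.exp (Real.log (1 / q) - m * Real.log r) := by
    rw [Real.exp_sub, Real.exp_log (by positivity), ← Real.log_pow, Real.exp_log hrm, one_div]
    rfl
  rw [hR] at hLL
  constructor
  · intro a
    obtain ⟨G, hG⟩ : ∃ G, G = F.filter fun f => (are m f : ℝ) ≤ a := ⟨_, rfl⟩
    have eG : ({f : ZMod m → ℤ × ℤ | Lp m f ∧ (are m f : ℝ) ≤ a}.ncard : ℕ) = G.card := by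
      rw [← Set.ncard_coe_finset]
      congr 1
      ext f
      rw [Finset.mem_coe, hG, mem_filter, hmF]
      rfl
    rw [eG]
    have h1 : (G.card : ℝ) * Real.exp (a * Real.log q) ≤ ∑ f ∈ F, q ^ are m f := by
      have h2 : ∑ f ∈ G, Real.exp (a * Real.log q) ≤ ∑ f ∈ G, q ^ are m f := by
        refine sum_le_sum fun f hf => ?_
        rw [hG, mem_filter] at hf
        rw [← Real.rpow_natCast, Real.rpow_def_of_pos hq, Real.exp_le_exp, mul_comm a]
        have : Real.log q < 0 := by linarith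
        nlinarith [hf.2]
      rw [sum_const, nsmul_eq_mul] at h2
      refine h2.trans (sum_le_sum_of_subset_of_nonneg ?_ fun _ _ _ => pow_nonneg hq.le _)
      rw [hG]
      exact filter_subset _ _
    have h2 := h1.trans hLL
    rw [div_le_iff₀ hN0]
    have e1 : Real.exp ((a + 1) * Real.log (1 / q) - m * Real.log r - Real.log P) =
        Real.exp (Real.log (1 / q) - m * Real.log r) * Real.exp (-(a * Real.log q)) / P := by
      rw [← Real.exp_add, ← Real.exp_log hP, ← Real.exp_sub, Real.log_exp, hlq']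
      congr 1
      ring
    rw [e1]
    have h3 : (G.card : ℝ) ≤ 2 * m * Real.exp (Real.log (1 / q) - m * Real.log r) *
        Real.exp (-(a * Real.log q)) := by
      have h4 := mul_le_mul_of_nonneg_right h2 (Real.exp_pos (-(a * Real.log q))).le
      rwa [mul_assoc, ← Real.exp_add, add_neg_cancel, Real.exp_zero, mul_one] at h4
    refine h3.trans ?_
    have h5 : 0 < Real.exp (Real.log (1 / q) - m * Real.log r) * Real.exp (-(a * Real.log q)) := by
      positivity
    obtain ⟨E, hE⟩ : ∃ E, E = Real.exp (Real.log (1 / q) - m * Real.log r) *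
      Real.exp (-(a * Real.log q)) := ⟨_, rfl⟩
    rw [← hE] at h5 ⊢
    rw [mul_assoc, ← hE, div_mul_eq_mul_div, le_div_iff₀ hP]
    nlinarith
  · obtain ⟨M, hM⟩ : ∃ M, M = (∑ f ∈ F, (are m f : ℝ)) / N := ⟨_, rfl⟩
    rw [← hM]
    have h1 : N * Real.exp (M * Real.log q) ≤ ∑ f ∈ F, q ^ are m f := by
      have h2 : ∑ f ∈ F, Real.exp (M * Real.log q) * (1 + ((are m f : ℝ) - M) * Real.log q) ≤
          ∑ f ∈ F, q ^ are m f := by
        refine sum_le_sum fun f hf => ?_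
        rw [← Real.rpow_natCast, Real.rpow_def_of_pos hq]
        have h3 := Real.add_one_le_exp (((are m f : ℝ) - M) * Real.log q)
        have h4 := mul_le_mul_of_nonneg_left h3 (Real.exp_pos (M * Real.log q)).le
        rw [← Real.exp_add] at h4
        rw [add_comm 1]
        refine h4.trans (le_of_eq ?_)
        congr 1
        ring
      refine le_trans (le_of_eq ?_) h2
      rw [← mul_sum, sum_add_distrib, ← sum_mul, sum_sub_distrib, sum_const, sum_const,
        nsmul_eq_mul, nsmul_eq_mul, ← hN, mul_one]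
      have h5 : ∑ f ∈ F, (are m f : ℝ) = N * M := by
        rw [hM]
        field_simp
      rw [h5]
      ring
    have h2 := h1.trans hLL
    have h3 : P * Real.exp (M * Real.log q) ≤ Real.exp (Real.log (1 / q) - m * Real.log r) := by
      have h4 := mul_le_mul_of_nonneg_right hPN (Real.exp_pos (M * Real.log q)).le
      have h5 := h4.trans h2
      have h6 : 2 * (m : ℝ) * (P * Real.exp (M * Real.log q)) ≤
          2 * (m : ℝ) * Real.exp (Real.log (1 / q) - m * Real.log r) := by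
        linarith
      exact le_of_mul_le_mul_left h6 (by positivity)
    rw [← Real.exp_log hP, ← Real.exp_add, Real.exp_le_exp] at h3
    rw [hlq'] at h3 ⊢
    linarith

end

end Pool.Agent.Helper99.DP
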