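import Pool.Agent.Helper99.AG.AreaFin

/-!
# Concatenation of polygons of the square lattice, with areas
-/

set_option autoImplicit false
set_option linter.unusedVariables false

namespace Pool.Agent.Helper99.DP

open Finset Pool.Agent.N929.EG Pool.Agent.Helper99.AG
open TH966.AK hiding lst
open Pool.Agent.R965.HP
open scoped Classical

noncomputable section

/-- a polygon as a list: it starts with its leftmost vertical edge, upwards -/
structure Can (w : List (ℤ × ℤ)) : Prop where
  walk : TH966.AK.Walk Sq.A w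
  cl : Sq.A (lst w) 0
  len : 4 ≤ w.length
  sec : ∃ t, w = (0, 0) :: (0, 1) :: t
  lex : ∀ x ∈ w, 0 ≤ x.1 ∧ (x.1 = 0 → 0 ≤ x.2)

/-- a vertical edge in the rightmost column -/
structure Spl (w a : List (ℤ × ℤ)) (v u : ℤ × ℤ) (b : List (ℤ × ℤ)) : Prop where
  eq : w = a ++ v :: u :: b
  fst : u.1 = v.1
  one : 1 ≤ v.1
  snd : u.2 = v.2 - 1 ∨ u.2 = v.2 + 1
  le : ∀ x ∈ w, x.1 ≤ v.1

theorem lst_mem' {w : List (ℤ × ℤ)} (h : w ≠ []) : lst w ∈ w := by
  unfold lst
  rw [List.getLast?_eq_getLast_of_ne_nil h, Option.getD_some]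
  exact List.getLast_mem h

theorem adj_lt {y V : ℤ × ℤ} (h : Sq.A y V ∨ Sq.A V y)
    (hle : y.1 < V.1 ∨ (y.1 = V.1 ∧ y.2 ≤ V.2)) :
    y = (V.1 - 1, V.2) ∨ y = (V.1, V.2 - 1) := by
  have h' : Sq.A V y := by
    rcases h with h | h
    · unfold Sq.A at h ⊢
      rw [abs_sub_comm V.1, abs_sub_comm V.2]
      exact h
    · exact h
  rw [Sq.A_iff] at h'
  rcases h' with ⟨h1, h2⟩ | ⟨h1, h2⟩ | ⟨h1, h2⟩ | ⟨h1, h2⟩
  · omega
  · left; exact Prod.ext h1 h2
  · omega
  · right; exact Prod.ext h1 h2

theorem can_spl {w : List (ℤ × ℤ)} (h : Can w) : ∃ a v u b, Spl w a v u b := by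
  obtain ⟨hh, hn, hch⟩ := h.walk
  obtain ⟨t, ht⟩ := h.sec
  have hw0 : w ≠ [] := by rw [ht]; exact List.cons_ne_nil _ _
  have hl := lst_mem' hw0
  obtain ⟨V, hV, hmax⟩ := Finset.exists_max_image w.toFinset (fun x : ℤ × ℤ => toLex x)
    (List.toFinset_nonempty_iff w |>.2 hw0)
  rw [List.mem_toFinset] at hV
  have hmax' : ∀ x ∈ w, x.1 < V.1 ∨ (x.1 = V.1 ∧ x.2 ≤ V.2) := fun x hx => by
    have h1 := hmax x (List.mem_toFinset.2 hx)
    rw [Prod.Lex.le_iff] at h1
    exact h1
  have hle : ∀ x ∈ w, x.1 ≤ V.1 := fun x hx => by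
    rcases hmax' x hx with h1 | h1 <;> omega
  -- the closing vertex
  have hl2 : lst w = (1, 0) := by
    have h1 := h.cl
    have h2 := h.lex _ hl
    have h3 : lst w ≠ (0, 1) := by
      intro h3
      have h4 : lst w = t.getLast?.getD (0, 1) := by
        rw [ht]
        unfold lst
        cases t with
        | nil => rfl
        | cons y t => simp [List.getLast?_cons]
      have h5 : t ≠ [] := by
        rintro rfl
        have := h.len
        rw [ht] at this
        simp at this
      have h6 : t.getLast?.getD (0, 1) ∈ t := by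
        rw [List.getLast?_eq_getLast_of_ne_nil h5, Option.getD_some]
        exact List.getLast_mem h5
      rw [← h4, h3] at h6
      rw [ht] at hn
      simp only [List.nodup_cons] at hn
      exact hn.2.1 h6
    unfold Sq.A at h1
    have e1 : (0 : ℤ × ℤ).1 = 0 := rfl
    have e2 : (0 : ℤ × ℤ).2 = 0 := rfl
    rw [e1, e2, sub_zero, sub_zero] at h1
    obtain ⟨h4, h5⟩ := h2
    rw [abs_of_nonneg h4] at h1
    have h6 := abs_nonneg (lst w).2
    by_cases h7 : (lst w).1 = 0
    · have h8 := h5 h7
      rw [abs_of_nonneg h8] at h1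
      exact absurd (Prod.ext h7 (by omega : (lst w).2 = 1)) h3
    · have h8 : (lst w).1 = 1 := by omega
      have h9 : |(lst w).2| = 0 := by omega
      exact Prod.ext h8 (abs_eq_zero.1 h9)
  have hV1 : 1 ≤ V.1 := by
    have h1 := hle _ hl
    rw [hl2] at h1
    exact h1
  obtain ⟨p, r, hpr⟩ := List.append_of_mem hV
  -- the predecessor
  have hp : p ≠ [] := by
    rintro rfl
    rw [List.nil_append, ht, List.cons_eq_cons] at hpr
    have : V.1 = 0 := by rw [← hpr.1]
    omega
  obtain ⟨p', y, hpy⟩ : ∃ p' y, p = p' ++ [y] := ⟨p.dropLast, p.getLast hp,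
    (List.dropLast_append_getLast hp).symm⟩
  have hyw : y ∈ w := by rw [hpr, hpy]; simp
  have hyV : Sq.A y V := by
    rw [hpr, hpy] at hch
    rw [List.append_assoc, List.isChain_append] at hch
    have := hch.2.1
    simp only [List.cons_append, List.nil_append, List.isChain_cons_cons] at this
    exact this.1
  rcases adj_lt (Or.inl hyV) (hmax' y hyw) with hy | hy
  · -- the predecessor is on the left
    cases r with
    | nil =>
      exfalso
      have h1 : lst w = V := by
        rw [hpr]
        unfold lst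
        simp
      rw [hl2] at h1
      have h2 : y = (0, 0) := by rw [hy, ← h1]; rfl
      have h3 : p' = [] := by
        by_contra h3
        obtain ⟨z, p2, hz⟩ := List.exists_cons_of_ne_nil h3
        rw [ht] at hpr
        rw [hpy, hz] at hpr
        simp only [List.cons_append, List.cons_eq_cons] at hpr
        have hzz : z = (0, 0) := hpr.1.symm
        have : ¬ (((0, 0) : ℤ × ℤ) :: (0, 1) :: t).Nodup := by
          rw [hpr.2]
          intro hnd
          rw [List.nodup_cons] at hnd
          apply hnd.1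
          simp [h2]
        rw [ht] at hn
        exact this hn
      have h4 := h.len
      rw [hpr, hpy, h3] at h4
      simp at h4
    | cons z r' =>
      have hzw : z ∈ w := by rw [hpr]; simp
      have hVz : Sq.A V z := by
        rw [hpr, List.isChain_append] at hch
        have := hch.2.1
        rw [List.isChain_cons_cons] at this
        exact this.1
      have hzy : z ≠ y := by
        rintro rfl
        rw [hpr, hpy] at hn
        rw [List.nodup_append] at hn
        exact hn.2.2 z (by simp) z (by simp) rfl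
      rcases adj_lt (Or.inr hVz) (hmax' z hzw) with hz | hz
      · exact absurd (hz.trans hy.symm) hzy
      · exact ⟨p, V, z, r', hpr, by rw [hz], hV1, Or.inl (by rw [hz]), hle⟩
  · refine ⟨p', y, V, r, by rw [hpr, hpy]; simp, by rw [hy], by rw [hy]; exact hV1,
      Or.inr (by rw [hy]; simp), fun x hx => by rw [hy]; exact hle x hx⟩

end

end Pool.Agent.Helper99.DP
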