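import Pool.Agent.Helper99.DP.Jn

/-!
# Concatenation of polygons: the operation, cells and areas
-/

set_option autoImplicit false
set_option linter.unusedVariables false

namespace Pool.Agent.Helper99.DP

open Finset Pool.Agent.N929.EG Pool.Agent.Helper99.AG
open TH966.AK hiding lst
open Pool.Agent.R965.HP
open scoped Classical

noncomputable section

/-- the polygon without its first edge -/
def pth (Q : List (ℤ × ℤ)) : List (ℤ × ℤ) := Q.tail ++ [(0, 0)]

/-- the shift -/
def shf (v u : ℤ × ℤ) : ℤ × ℤ := (v.1 + 1, min v.2 u.2)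

/-- the inserted path -/
def mid (Q : List (ℤ × ℤ)) (v u : ℤ × ℤ) : List (ℤ × ℤ) :=
  (if u.2 < v.2 then pth Q else (pth Q).reverse).map (fun x => x + shf v u)

/-- the joined polygon -/
def jn (a : List (ℤ × ℤ)) (v u : ℤ × ℤ) (b Q : List (ℤ × ℤ)) : List (ℤ × ℤ) :=
  a ++ v :: (mid Q v u ++ u :: b)

section es

variable {V : Type} [AddCommMonoid V]

theorem es_map (g : ℤ × ℤ → ℤ × ℤ → ZMod 2) (f : ℤ × ℤ → ℤ × ℤ) : ∀ l : List (ℤ × ℤ),
    es g (l.map f) = es (fun x y => g (f x) (f y)) l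
  | [] => rfl
  | [_] => rfl
  | x :: y :: t => by
      have := es_map g f (y :: t)
      simp only [List.map_cons, es_cons] at this ⊢
      rw [this]

theorem es_snoc (g : ℤ × ℤ → ℤ × ℤ → ZMod 2) (l : List (ℤ × ℤ)) (x y : ℤ × ℤ) :
    es g (l ++ [x, y]) = es g (l ++ [x]) + g x y := by
  have h := es_mid g x [y] l
  rw [h]
  simp

theorem es_reverse (g : ℤ × ℤ → ℤ × ℤ → ZMod 2) : ∀ l : List (ℤ × ℤ),
    es g l.reverse = es (fun x y => g y x) l
  | [] => rfl
  | [_] => rfl
  | x :: y :: t => by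
      have h := es_reverse g (y :: t)
      rw [List.reverse_cons] at h
      rw [List.reverse_cons, List.reverse_cons, List.append_assoc, List.singleton_append, es_snoc,
        h, es_cons, add_comm]

end es

theorem ab_shift (c s x y : ℤ × ℤ) : ab c (x + s) (y + s) = ab (c - s) x y := by
  unfold ab
  refine if_congr ?_ rfl rfl
  simp only [Prod.fst_add, Prod.snd_add, Prod.fst_sub, Prod.snd_sub]
  omega

theorem ab_symm {c x y : ℤ × ℤ} (h : Sq.A x y) : ab c y x = ab c x y := by
  rw [Sq.A_iff] at h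
  unfold ab
  refine if_congr ?_ rfl rfl
  omega

theorem sqA_symm {x y : ℤ × ℤ} (h : Sq.A x y) : Sq.A y x := by
  unfold Sq.A at h ⊢
  rw [abs_sub_comm y.1, abs_sub_comm y.2]
  exact h

theorem sqA_add {x y s : ℤ × ℤ} (h : Sq.A x y) : Sq.A (x + s) (y + s) := by
  unfold Sq.A at h ⊢
  simp only [Prod.fst_add, Prod.snd_add]
  rw [show x.1 + s.1 - (y.1 + s.1) = x.1 - y.1 by ring,
    show x.2 + s.2 - (y.2 + s.2) = x.2 - y.2 by ring]
  exact h

variable {w Q a b : List (ℤ × ℤ)} {v u : ℤ × ℤ}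

theorem pth_form (hQ : Can Q) : ∃ t z, Q = (0, 0) :: (0, 1) :: t ∧ lst Q = z ∧
    pth Q = (0, 1) :: t ++ [(0, 0)] ∧ ∃ t', (0, 1) :: t = t' ++ [z] := by
  obtain ⟨t, ht⟩ := hQ.sec
  refine ⟨t, lst Q, ht, rfl, ?_, ((0, 1) :: t).dropLast, ?_⟩
  · unfold pth
    rw [ht]
    rfl
  · have h1 : lst Q = ((0, 1) :: t).getLast (List.cons_ne_nil _ _) := by
      rw [ht]
      unfold lst
      rw [List.getLast?_eq_getLast_of_ne_nil (List.cons_ne_nil _ _), Option.getD_some,
        List.getLast_cons (List.cons_ne_nil _ _)]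
    rw [h1]
    exact (List.dropLast_append_getLast _).symm

theorem pth_chain (hQ : Can Q) : (pth Q).IsChain Sq.A := by
  obtain ⟨t, z, h1, h2, h3, t', h4⟩ := pth_form hQ
  obtain ⟨hh, hn, hch⟩ := hQ.walk
  rw [h3, List.isChain_append]
  refine ⟨?_, List.isChain_singleton _, fun x hx y hy => ?_⟩
  · rw [h1, List.isChain_cons_cons] at hch
    exact hch.2
  · rw [h4, List.getLast?_concat, Option.mem_some_iff] at hx
    simp only [List.head?_cons, Option.mem_some_iff] at hy
    subst hx hy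
    have := hQ.cl
    rw [h2] at this
    exact this

theorem pth_perm (hQ : Can Q) : (pth Q).Perm Q := by
  obtain ⟨t, z, h1, h2, h3, t', h4⟩ := pth_form hQ
  rw [h3, h1]
  exact List.perm_append_singleton _ _

theorem es_pth (hQ : Can Q) (c : ℤ × ℤ) : es (ab c) (pth Q) = par c Q := by
  obtain ⟨t, z, h1, h2, h3, t', h4⟩ := pth_form hQ
  unfold par
  have e1 : Q.getLast?.getD 0 = z := h2
  rw [e1, h3, h1, es_cons]
  have e2 : ab c (0, 0) (0, 1) = 0 := by
    unfold ab
    rw [if_neg]
    simp only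
    omega
  rw [e2, zero_add, h4, List.append_assoc, List.singleton_append, es_snoc]
  rfl

theorem mid_chain (hQ : Can Q) : (mid Q v u).IsChain Sq.A := by
  unfold mid
  rw [List.isChain_map]
  have h := pth_chain hQ
  split_ifs
  · exact h.imp fun x y hxy => sqA_add hxy
  · rw [List.isChain_reverse]
    exact h.imp fun x y hxy => sqA_add (sqA_symm hxy)

theorem mid_perm (hQ : Can Q) : (mid Q v u).Perm (Q.map fun x => x + shf v u) := by
  unfold mid
  refine List.Perm.map _ ?_
  split_ifs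
  · exact pth_perm hQ
  · exact (List.reverse_perm _).trans (pth_perm hQ)

theorem mid_nodup (hQ : Can Q) : (mid Q v u).Nodup := by
  rw [(mid_perm hQ).nodup_iff]
  exact hQ.walk.2.1.map fun x y h => add_right_cancel h

theorem mid_len (hQ : Can Q) : (mid Q v u).length = Q.length := by
  rw [(mid_perm hQ).length_eq, List.length_map]

theorem mid_gt (hQ : Can Q) : ∀ x ∈ mid Q v u, v.1 < x.1 := by
  intro x hx
  rw [(mid_perm hQ).mem_iff, List.mem_map] at hx
  obtain ⟨y, hy, rfl⟩ := hx
  have := (hQ.lex y hy).1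
  simp only [shf, Prod.fst_add]
  omega

theorem mid_ends (hQ : Can Q) (hs : u.2 = v.2 - 1 ∨ u.2 = v.2 + 1) :
    ∃ M, mid Q v u = (v.1 + 1, v.2) :: (M ++ [(v.1 + 1, u.2)]) := by
  obtain ⟨t, z, h1, h2, h3, t', h4⟩ := pth_form hQ
  unfold mid
  rw [h3]
  rcases hs with hs | hs
  · rw [if_pos (by omega)]
    refine ⟨t.map fun x => x + shf v u, ?_⟩
    simp only [List.cons_append, List.map_cons, List.map_append, List.map_nil, shf]
    have e1 : ((0, 1) : ℤ × ℤ) + (v.1 + 1, min v.2 u.2) = (v.1 + 1, v.2) :=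
      Prod.ext (by simp) (by simp only [Prod.snd_add]; omega)
    have e2 : ((0, 0) : ℤ × ℤ) + (v.1 + 1, min v.2 u.2) = (v.1 + 1, u.2) :=
      Prod.ext (by simp) (by simp only [Prod.snd_add]; omega)
    rw [e1, e2]
  · rw [if_neg (by omega)]
    refine ⟨t.reverse.map fun x => x + shf v u, ?_⟩
    have e1 : ((0, 1) : ℤ × ℤ) + (v.1 + 1, min v.2 u.2) = (v.1 + 1, u.2) :=
      Prod.ext (by simp) (by simp only [Prod.snd_add]; omega)
    have e2 : ((0, 0) : ℤ × ℤ) + (v.1 + 1, min v.2 u.2) = (v.1 + 1, v.2) :=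
      Prod.ext (by simp) (by simp only [Prod.snd_add]; omega)
    have e3 : ((0, 1) :: t ++ [(0, 0)]).reverse = (0, 0) :: (t.reverse ++ [(0, 1)]) := by simp
    rw [e3, List.map_cons, List.map_append, List.map_singleton]
    simp only [shf]
    rw [e1, e2]

theorem es_mid' (hQ : Can Q) (c : ℤ × ℤ) : es (ab c) (mid Q v u) = par (c - shf v u) Q := by
  unfold mid
  rw [es_map]
  have e : (fun x y => ab c (x + shf v u) (y + shf v u)) = ab (c - shf v u) := by
    funext x y
    exact ab_shift c _ x y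
  rw [e, ← es_pth hQ]
  split_ifs
  · rfl
  · rw [es_reverse]
    exact es_congr _ (pth_chain hQ) fun x _ y _ h => ab_symm h

theorem jn_perm (h : Spl w a v u b) : (jn a v u b Q).Perm (w ++ mid Q v u) := by
  rw [h.eq]
  unfold jn
  have e1 : a ++ v :: (mid Q v u ++ u :: b) = (a ++ [v]) ++ (mid Q v u ++ u :: b) := by simp
  have e2 : a ++ v :: u :: b ++ mid Q v u = (a ++ [v]) ++ (u :: b ++ mid Q v u) := by simp
  rw [e1, e2]
  exact List.Perm.append_left _ List.perm_append_comm

theorem jn_lst (h : Spl w a v u b) : lst (jn a v u b Q) = lst w := by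
  have e : ∀ L : List (ℤ × ℤ), lst (L ++ u :: b) = lst (u :: b) := fun L => by
    unfold lst
    rw [List.getLast?_append_of_ne_nil _ (List.cons_ne_nil _ _)]
  have e1 : jn a v u b Q = (a ++ v :: mid Q v u) ++ u :: b := by simp [jn]
  have e2 : w = (a ++ [v]) ++ u :: b := by rw [h.eq]; simp
  rw [e1, e2, e, e]

/-- the joined polygon is a polygon -/
theorem jn_can (hw : Can w) (hQ : Can Q) (h : Spl w a v u b) : Can (jn a v u b Q) := by
  obtain ⟨hh, hn, hch⟩ := hw.walk
  obtain ⟨t, ht⟩ := hw.sec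
  obtain ⟨M, hM⟩ := mid_ends (u := u) (v := v) hQ h.snd
  have hu1 := h.fst
  -- the list `a` has at least two elements
  obtain ⟨a', ha⟩ : ∃ a', a = (0, 0) :: (0, 1) :: a' := by
    have he := h.eq
    rw [ht] at he
    have h1 := h.one
    rcases a with _ | ⟨x, _ | ⟨y, a'⟩⟩
    · rw [List.nil_append, List.cons_eq_cons] at he
      rw [← he.1] at h1
      simp at h1
    · rw [List.cons_append, List.nil_append, List.cons_eq_cons, List.cons_eq_cons] at he
      rw [← he.2.1] at h1
      simp at h1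
    · rw [List.cons_append, List.cons_append, List.cons_eq_cons, List.cons_eq_cons] at he
      exact ⟨a', by rw [he.1, he.2.1]⟩
  have hmem : ∀ x ∈ jn a v u b Q, x ∈ w ∨ x ∈ mid Q v u := fun x hx => by
    rw [(jn_perm h).mem_iff, List.mem_append] at hx
    exact hx
  refine ⟨⟨?_, ?_, ?_⟩, ?_, ?_, ?_, ?_⟩
  · unfold jn
    rw [ha]
    rfl
  · rw [(jn_perm h).nodup_iff, List.nodup_append]
    refine ⟨hn, mid_nodup hQ, fun x hx y hy hxy => ?_⟩
    have h1 := h.le x hx
    have h2 := mid_gt hQ y hy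
    rw [hxy] at h1
    omega
  · have hc := h.eq ▸ hch
    rw [List.isChain_append, List.isChain_cons_cons] at hc
    unfold jn
    rw [List.isChain_append, List.isChain_cons, List.isChain_append]
    refine ⟨hc.1, ⟨fun y hy => ?_, mid_chain hQ, hc.2.1.2, fun x hx y hy => ?_⟩,
      fun x hx y hy => ?_⟩
    · rw [hM] at hy
      simp only [List.cons_append, List.head?_cons, Option.mem_some_iff] at hy
      rw [← hy, Sq.A_iff]
      left
      exact ⟨rfl, rfl⟩
    · rw [hM, List.getLast?_cons, List.getLast?_concat] at hx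
      simp only [Option.getD_some, Option.mem_some_iff] at hx
      simp only [List.head?_cons, Option.mem_some_iff] at hy
      rw [← hx, ← hy, Sq.A_iff]
      right; left
      refine ⟨?_, rfl⟩
      rw [hu1]
      simp
    · refine hc.2.2 x hx y ?_
      simpa using hy
  · rw [jn_lst h]
    exact hw.cl
  · rw [(jn_perm h).length_eq, List.length_append]
    have := hw.len
    omega
  · refine ⟨a' ++ v :: (mid Q v u ++ u :: b), ?_⟩
    unfold jn
    rw [ha]
    rfl
  · intro x hx
    rcases hmem x hx with hx | hx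
    · exact hw.lex x hx
    · have h1 := mid_gt hQ x hx
      have h2 := h.one
      exact ⟨by omega, fun h3 => by omega⟩

theorem jn_len (hQ : Can Q) (h : Spl w a v u b) :
    (jn a v u b Q).length = w.length + Q.length := by
  rw [(jn_perm h).length_eq, List.length_append, mid_len hQ]

/-- the cells -/
theorem jn_par (hw : Can w) (hQ : Can Q) (h : Spl w a v u b) (c : ℤ × ℤ) :
    par c (jn a v u b Q) = par c w + par (c - shf v u) Q +
      if c = (v.1, min v.2 u.2) then 1 else 0 := by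
  obtain ⟨M, hM⟩ := mid_ends (u := u) (v := v) hQ h.snd
  have hu1 := h.fst
  have e0 : (jn a v u b Q).getLast?.getD 0 = w.getLast?.getD 0 := jn_lst h
  have e1 : es (ab c) (jn a v u b Q) = es (ab c) (a ++ [v]) + (ab c v (v.1 + 1, v.2) +
      (es (ab c) (mid Q v u) + (ab c (v.1 + 1, u.2) u + es (ab c) (u :: b)))) := by
    unfold jn
    rw [es_mid]
    congr 1
    rw [hM]
    rw [List.cons_append, es_cons]
    congr 1
    have e2 : (v.1 + 1, v.2) :: (M ++ [(v.1 + 1, u.2)] ++ u :: b) =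
        ((v.1 + 1, v.2) :: (M ++ [(v.1 + 1, u.2)])) ++ u :: b := rfl
    rw [e2, es_mid]
    have e3 : ((v.1 + 1, v.2) :: (M ++ [(v.1 + 1, u.2)])) ++ [u] =
        ((v.1 + 1, v.2) :: M) ++ [(v.1 + 1, u.2), u] := by simp
    have e4 : (v.1 + 1, v.2) :: (M ++ [(v.1 + 1, u.2)]) =
        ((v.1 + 1, v.2) :: M) ++ [(v.1 + 1, u.2)] := by simp
    rw [e3, es_snoc, e4, add_assoc]
  have e2 : es (ab c) w = es (ab c) (a ++ [v]) + es (ab c) (u :: b) := by
    conv_lhs => rw [h.eq]
    rw [es_mid, es_cons]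
    have : ab c v u = 0 := by
      unfold ab
      rw [if_neg]
      omega
    rw [this, zero_add]
  have e3 : ab c v (v.1 + 1, v.2) + ab c (v.1 + 1, u.2) u =
      if c = (v.1, min v.2 u.2) then 1 else 0 := by
    unfold ab
    simp only
    by_cases hc1 : c.1 = v.1
    · have g1 : ((v.1 = c.1 ∧ v.1 + 1 = c.1 + 1 ∨ v.1 = c.1 + 1 ∧ v.1 + 1 = c.1) ∧ c.2 < v.2) ↔
          c.2 < v.2 := by omega
      have g2 : ((v.1 + 1 = c.1 ∧ u.1 = c.1 + 1 ∨ v.1 + 1 = c.1 + 1 ∧ u.1 = c.1) ∧ c.2 < u.2) ↔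
          c.2 < u.2 := by omega
      rw [if_congr g1 rfl rfl, if_congr g2 rfl rfl]
      have g3 : c = (v.1, min v.2 u.2) ↔ c.2 = min v.2 u.2 := by
        rw [Prod.ext_iff]
        simp only
        exact ⟨fun h => h.2, fun h => ⟨hc1, h⟩⟩
      rw [if_congr g3 rfl rfl]
      have hs := h.snd
      by_cases k1 : c.2 < v.2
      · by_cases k2 : c.2 < u.2
        · rw [if_pos k1, if_pos k2, if_neg (by omega)]
          decide
        · rw [if_pos k1, if_neg k2, if_pos (by omega), add_zero]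
      · by_cases k2 : c.2 < u.2
        · rw [if_neg k1, if_pos k2, if_pos (by omega), zero_add]
        · rw [if_neg k1, if_neg k2, if_neg (by omega), add_zero]
    · rw [if_neg (by omega), if_neg (by omega), if_neg, add_zero]
      intro h
      exact hc1 (by rw [h])
  unfold par
  rw [e0, e1, e2, ← e3, es_mid' hQ]
  unfold par
  ring

end

end Pool.Agent.Helper99.DP
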