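import Pool.Agent.Helper99.DP.Jn2

/-!
# Concatenation of polygons: areas, injectivity and weighted sums
-/

set_option autoImplicit false
set_option linter.unusedVariables false

namespace Pool.Agent.Helper99.DP

open Finset Filter Topology Pool.Agent.N929.EG Pool.Agent.Helper99.AG
open TH966.AK hiding lst
open Pool.Agent.R965.HP
open scoped Classical

noncomputable section

variable {w Q a b : List (ℤ × ℤ)} {v u : ℤ × ℤ}

theorem walk_form (h : TH966.AK.Walk Sq.A w) : ∃ t, w = 0 :: t ∧ w.IsChain Sq.A := by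
  obtain ⟨h1, h2, h3⟩ := h
  cases w with
  | nil => simp at h1
  | cons x t =>
    rw [List.head?_cons, Option.some.injEq] at h1
    exact ⟨t, by rw [h1], h3⟩

/-- outside of a box the crossing numbers are even -/
theorem par_fin (hw : TH966.AK.Walk Sq.A w) (hc : Sq.A (lst w) 0) :
    {c : ℤ × ℤ | par c w = 1}.Finite := by
  obtain ⟨t, ht, h3⟩ := walk_form hw
  obtain ⟨n, hn⟩ : ∃ n : ℕ, n = t.length := ⟨_, rfl⟩
  have hb : ∀ y ∈ w, |y.1| ≤ n ∧ |y.2| ≤ n := fun y hy => by
    rw [ht] at hy h3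
    have h := near_chain t 0 h3 y hy
    simpa [hn] using h
  have hw0 : w ≠ [] := by rw [ht]; exact List.cons_ne_nil _ _
  have hl := hb _ (lst_mem' hw0)
  have h0 := hb 0 (by rw [ht]; simp)
  refine (Finset.finite_toSet (Finset.Icc (-(n : ℤ)) n ×ˢ Finset.Icc (-(n : ℤ)) n)).subset ?_
  intro c hp
  rw [Finset.mem_coe, Finset.mem_product, Finset.mem_Icc, Finset.mem_Icc]
  have hp1 : par c w = 1 := hp
  by_contra hcon
  have hcase : (c.1 < -(n : ℤ) ∨ (n : ℤ) ≤ c.1 ∨ (n : ℤ) ≤ c.2) ∨ c.2 < -(n : ℤ) := by omega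
  have hpar : par c w = es (ab c) w + ab c (lst w) 0 := rfl
  have hz1 : par c w = 0 := by
    rw [hpar]
    rcases hcase with hcase | hcase
    · have hz : ∀ x y : ℤ × ℤ, (|x.1| ≤ n ∧ |x.2| ≤ n) → (|y.1| ≤ n ∧ |y.2| ≤ n) →
          ab c x y = 0 := by
        intro x y hx hy
        rw [abs_le, abs_le] at hx hy
        unfold ab
        refine if_neg ?_
        omega
      have e1 : es (ab c) w = 0 := by
        rw [es_congr (A := Sq.A) (g' := fun _ _ => (0 : ZMod 2)) w h3
          (fun x hx y hy _ => hz x y (hb x hx) (hb y hy)), es_zero]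
      rw [e1, zero_add]
      exact hz _ _ hl h0
    · obtain ⟨φ, hφ⟩ : ∃ φ : ℤ × ℤ → ZMod 2, φ = fun x => if x.1 ≤ c.1 then 1 else 0 := ⟨_, rfl⟩
      have hz : ∀ x y : ℤ × ℤ, (|x.1| ≤ n ∧ |x.2| ≤ n) → Sq.A x y → ab c x y = φ y - φ x := by
        intro x y hx ha
        rw [abs_le, abs_le] at hx
        rw [Sq.A_iff] at ha
        unfold ab
        rw [hφ]
        simp only
        by_cases b1 : x.1 ≤ c.1 <;> by_cases b2 : y.1 ≤ c.1
        · rw [if_neg (by omega), if_pos b1, if_pos b2]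
          decide
        · rw [if_pos (by omega), if_pos b1, if_neg b2]
          decide
        · rw [if_pos (by omega), if_neg b1, if_pos b2]
          decide
        · rw [if_neg (by omega), if_neg b1, if_neg b2]
          decide
      have e1 : es (ab c) w = φ (lst w) - φ 0 := by
        rw [es_congr (A := Sq.A) (g' := fun x y => φ y - φ x) w h3
          (fun x hx y hy ha => hz x y (hb x hx) ha)]
        rw [ht, es_tel]
        unfold lst
        rw [List.getLast?_eq_getLast_of_ne_nil (List.cons_ne_nil _ _)]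
        rfl
      rw [e1, hz _ _ hl hc]
      abel
  rw [hz1] at hp1
  exact zero_ne_one hp1

theorem par_side (hw : TH966.AK.Walk Sq.A w) {c : ℤ × ℤ}
    (h : (∀ x ∈ w, c.1 < x.1) ∨ ∀ x ∈ w, x.1 ≤ c.1) : par c w = 0 := by
  obtain ⟨t, ht, h3⟩ := walk_form hw
  have hw0 : w ≠ [] := by rw [ht]; exact List.cons_ne_nil _ _
  have hz : ∀ x ∈ w, ∀ y ∈ w, ab c x y = 0 := by
    intro x hx y hy
    unfold ab
    refine if_neg ?_
    rcases h with h | h
    · have h1 := h x hx
      have h2 := h y hy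
      omega
    · have h1 := h x hx
      have h2 := h y hy
      omega
  have hpar : par c w = es (ab c) w + ab c (lst w) 0 := rfl
  rw [hpar, es_congr (A := Sq.A) (g' := fun _ _ => (0 : ZMod 2)) w h3
    (fun x hx y hy _ => hz x hx y hy), es_zero, zero_add]
  exact hz _ (lst_mem' hw0) _ (by rw [ht]; simp)

/-- the area of the joined polygon -/
theorem jn_arl (hw : Can w) (hQ : Can Q) (h : Spl w a v u b) :
    arl (jn a v u b Q) = arl w + arl Q + 1 := by
  obtain ⟨s, hs⟩ : ∃ s, s = shf v u := ⟨_, rfl⟩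
  obtain ⟨p, hp⟩ : ∃ p : ℤ × ℤ, p = (v.1, min v.2 u.2) := ⟨_, rfl⟩
  have hs1 : s.1 = v.1 + 1 := by rw [hs]; rfl
  have hp1 : p.1 = v.1 := by rw [hp]
  have k1 : ∀ c : ℤ × ℤ, v.1 ≤ c.1 → par c w = 0 := fun c hc =>
    par_side hw.walk (Or.inr fun x hx => (h.le x hx).trans hc)
  have k2 : ∀ c : ℤ × ℤ, c.1 ≤ v.1 → par (c - s) Q = 0 := fun c hc =>
    par_side hQ.walk (Or.inl fun x hx => by
      have := (hQ.lex x hx).1
      rw [Prod.fst_sub, hs1]
      omega)
  have e1 : {c : ℤ × ℤ | par c (jn a v u b Q) = 1} =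
      ({c | par c w = 1} ∪ (fun c => c + s) '' {c | par c Q = 1}) ∪ {p} := by
    ext c
    simp only [Set.mem_ofPred_eq, Set.mem_union, Set.mem_image, Set.mem_singleton_iff]
    rw [jn_par hw hQ h, ← hs, ← hp]
    have e2 : (∃ x : ℤ × ℤ, par x Q = 1 ∧ x + s = c) ↔ par (c - s) Q = 1 := by
      constructor
      · rintro ⟨x, h1, rfl⟩
        rwa [add_sub_cancel_right]
      · intro h1
        exact ⟨c - s, h1, sub_add_cancel _ _⟩
    rw [e2]
    rcases lt_trichotomy c.1 v.1 with hc | hc | hc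
    · have hcp : c ≠ p := fun h => by rw [h, hp1] at hc; omega
      rw [k2 c hc.le, if_neg hcp, add_zero, add_zero]
      simp [hcp]
    · rw [k1 c hc.ge, k2 c hc.le, zero_add, zero_add]
      by_cases hcp : c = p
      · rw [if_pos hcp]; simp [hcp]
      · rw [if_neg hcp]; simp [hcp]
    · have hcp : c ≠ p := fun h => by rw [h, hp1] at hc; omega
      rw [k1 c hc.le, if_neg hcp, zero_add, add_zero]
      simp [hcp]
  have f1 := par_fin hw.walk hw.cl
  have f2 := par_fin hQ.walk hQ.cl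
  have g : ∀ l : List (ℤ × ℤ), arl l = {c : ℤ × ℤ | par c l = 1}.ncard := fun l => rfl
  have f3 : ((fun c : ℤ × ℤ => c + s) '' {c | par c Q = 1}).Finite := f2.image _
  have d1 : Disjoint {c : ℤ × ℤ | par c w = 1} ((fun c => c + s) '' {c | par c Q = 1}) := by
    rw [Set.disjoint_left]
    rintro c hc ⟨x, hx, rfl⟩
    have hc' : par (x + s) w = 1 := hc
    have hx' : par x Q = 1 := hx
    by_cases h1 : v.1 ≤ (x + s).1
    · rw [k1 _ h1] at hc'
      exact zero_ne_one hc'
    · have h2 := k2 (x + s) (by omega)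
      rw [add_sub_cancel_right] at h2
      rw [h2] at hx'
      exact zero_ne_one hx'
  have d2 : Disjoint ({c : ℤ × ℤ | par c w = 1} ∪ (fun c => c + s) '' {c | par c Q = 1}) {p} := by
    rw [Set.disjoint_singleton_right]
    rintro (hc | ⟨x, hx, hx2⟩)
    · have hc' : par p w = 1 := hc
      rw [k1 p hp1.ge] at hc'
      exact zero_ne_one hc'
    · have hx' : par x Q = 1 := hx
      have h2 := k2 p hp1.le
      rw [← hx2] at h2
      simp only [add_sub_cancel_right] at h2
      rw [h2] at hx'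
      exact zero_ne_one hx'
  rw [g, g, g, e1, Set.ncard_union_eq d2 (f1.union f3) (Set.finite_singleton _),
    Set.ncard_union_eq d1 f1 f3, Set.ncard_singleton,
    Set.ncard_image_of_injective _ (add_left_injective s)]

theorem jn_filter (hQ : Can Q) (h : Spl w a v u b) :
    (jn a v u b Q).filter (fun x => x.1 ≤ v.1) = w := by
  have h1 : ∀ l : List (ℤ × ℤ), (∀ x ∈ l, x ∈ w) → l.filter (fun x => x.1 ≤ v.1) = l := by
    intro l hl
    rw [List.filter_eq_self]
    intro x hx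
    exact decide_eq_true (h.le x (hl x hx))
  have h2 : (mid Q v u).filter (fun x => x.1 ≤ v.1) = [] := by
    rw [List.filter_eq_nil_iff]
    intro x hx
    have := mid_gt hQ x hx
    rw [decide_eq_true_iff]
    omega
  have e1 : jn a v u b Q = (a ++ [v]) ++ (mid Q v u ++ u :: b) := by simp [jn]
  have e2 : w = (a ++ [v]) ++ (u :: b) := by rw [h.eq]; simp
  rw [e1, List.filter_append (a ++ [v]), List.filter_append (mid Q v u), h2, List.nil_append,
    h1 (a ++ [v]) (fun x hx => by rw [e2]; exact List.mem_append_left _ hx),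
    h1 (u :: b) (fun x hx => by rw [e2]; exact List.mem_append_right _ hx)]
  exact e2.symm

theorem mid_inj {Q' : List (ℤ × ℤ)} (hQ : Can Q) (hQ' : Can Q') (h : mid Q v u = mid Q' v u) :
    Q = Q' := by
  unfold mid at h
  have h1 := List.map_injective_iff.2 (fun x y (hxy : x + shf v u = y + shf v u) =>
    add_right_cancel hxy) h
  have h2 : pth Q = pth Q' := by
    split_ifs at h1
    · exact h1
    · exact List.reverse_injective h1
  unfold pth at h2
  have h3 := List.append_cancel_right h2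
  obtain ⟨t, ht⟩ := hQ.sec
  obtain ⟨t', ht'⟩ := hQ'.sec
  rw [ht, ht'] at h3 ⊢
  rw [List.tail_cons, List.tail_cons] at h3
  rw [h3]

theorem jn_inj {w' Q' a' b' : List (ℤ × ℤ)} {v' u' : ℤ × ℤ} (hw : Can w) (hw' : Can w')
    (hQ : Can Q) (hQ' : Can Q') (h : Spl w a v u b) (h' : Spl w' a' v' u' b')
    (hl : w.length = w'.length) (he : jn a v u b Q = jn a' v' u' b' Q') : w = w' := by
  have key : ∀ {w Q a b w' Q' a' b' : List (ℤ × ℤ)} {v u v' u' : ℤ × ℤ}, Can w → Can w' →
      Can Q → Can Q' → Spl w a v u b → Spl w' a' v' u' b' → w.length = w'.length →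
      jn a v u b Q = jn a' v' u' b' Q' → v'.1 ≤ v.1 := by
    intro w Q a b w' Q' a' b' v u v' u' hw hw' hQ hQ' h h' hl he
    by_contra hlt
    push Not at hlt
    have g1 := jn_filter hQ h
    have g2 := jn_filter hQ' h'
    rw [← he] at g2
    obtain ⟨R, hR⟩ : ∃ R, R = jn a v u b Q := ⟨_, rfl⟩
    rw [← hR] at g1 g2
    have hsub : w.toFinset ⊆ w'.toFinset := by
      intro x hx
      rw [List.mem_toFinset] at hx ⊢
      rw [← g1, List.mem_filter, decide_eq_true_iff] at hx
      rw [← g2, List.mem_filter, decide_eq_true_iff]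
      exact ⟨hx.1, by omega⟩
    have hc : w'.toFinset.card ≤ w.toFinset.card := by
      rw [List.toFinset_card_of_nodup hw.walk.2.1, List.toFinset_card_of_nodup hw'.walk.2.1, hl]
    have heq := Finset.eq_of_subset_of_card_le hsub hc
    obtain ⟨M, hM⟩ := mid_ends (u := u) (v := v) hQ h.snd
    have hm : (v.1 + 1, v.2) ∈ R := by
      rw [hR, (jn_perm h).mem_iff, hM]
      simp
    have h1 : ((v.1 + 1, v.2) : ℤ × ℤ) ∈ w'.toFinset := by
      rw [List.mem_toFinset, ← g2, List.mem_filter, decide_eq_true_iff]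
      exact ⟨hm, by simp only; omega⟩
    rw [← heq, List.mem_toFinset] at h1
    have := h.le _ h1
    simp only at this
    omega
  have h1 := key hw hw' hQ hQ' h h' hl he
  have h2 := key hw' hw hQ' hQ h' h hl.symm he.symm
  have h3 : v.1 = v'.1 := by omega
  rw [← jn_filter hQ h, ← jn_filter hQ' h', he, h3]

/-! ### sums -/

/-- the polygons of perimeter `m` -/
def CN (m : ℕ) : Finset (List (ℤ × ℤ)) :=
  (Kw Sq.A (m - 1)).filter fun w => Can w ∧ w.length = m

theorem mem_CN {m : ℕ} : w ∈ CN m ↔ Can w ∧ w.length = m := by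
  unfold CN
  rw [mem_filter, Sq.rule.mem_K]
  constructor
  · exact fun h => h.2
  · intro h
    have := h.1.len
    exact ⟨⟨by omega, h.1.walk⟩, h⟩

/-- the weighted number of polygons -/
def WW (q : ℝ) (m : ℕ) : ℝ := ∑ w ∈ CN m, q ^ arl w

theorem WW_nonneg {q : ℝ} (hq : 0 ≤ q) (m : ℕ) : 0 ≤ WW q m :=
  sum_nonneg fun _ _ => pow_nonneg hq _

theorem WW_mul {q : ℝ} (hq : 0 ≤ q) (m n : ℕ) : q * (WW q m * WW q n) ≤ WW q (m + n) := by
  choose! fa fv fu fb hf using fun w (hw : Can w) => can_spl hw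
  have e1 : q * (WW q m * WW q n) = ∑ x ∈ CN m ×ˢ CN n,
      q ^ arl (jn (fa x.1) (fv x.1) (fu x.1) (fb x.1) x.2) := by
    unfold WW
    rw [sum_mul_sum, ← sum_product', mul_sum]
    refine sum_congr rfl fun x hx => ?_
    rw [mem_product, mem_CN, mem_CN] at hx
    rw [jn_arl hx.1.1 hx.2.1 (hf _ hx.1.1), pow_add, pow_add]
    ring
  have hinj : Set.InjOn (fun x : List (ℤ × ℤ) × List (ℤ × ℤ) =>
      jn (fa x.1) (fv x.1) (fu x.1) (fb x.1) x.2) (CN m ×ˢ CN n : Finset _) := by
    intro x hx y hy hxy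
    rw [mem_coe, mem_product, mem_CN, mem_CN] at hx hy
    have h1 := jn_inj hx.1.1 hy.1.1 hx.2.1 hy.2.1 (hf _ hx.1.1) (hf _ hy.1.1)
      (hx.1.2.trans hy.1.2.symm) hxy
    refine Prod.ext h1 ?_
    simp only [h1] at hxy
    unfold jn at hxy
    have h2 := List.append_cancel_left hxy
    rw [List.cons_eq_cons] at h2
    have h3 := List.append_cancel_right h2.2
    exact mid_inj hx.2.1 hy.2.1 h3
  rw [e1, ← sum_image (f := fun w => q ^ arl w) hinj]
  refine sum_le_sum_of_subset_of_nonneg ?_ fun _ _ _ => pow_nonneg hq _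
  intro w hw
  rw [mem_image] at hw
  obtain ⟨x, hx, rfl⟩ := hw
  rw [mem_product, mem_CN, mem_CN] at hx
  rw [mem_CN]
  refine ⟨jn_can hx.1.1 hx.2.1 (hf _ hx.1.1), ?_⟩
  rw [jn_len hx.2.1 (hf _ hx.1.1), hx.1.2, hx.2.2]

theorem WW_pow {q : ℝ} (hq : 0 ≤ q) (m k : ℕ) :
    (q * WW q m) ^ (k + 1) ≤ q * WW q ((k + 1) * m) := by
  induction k with
  | zero => simp
  | succ k ih =>
    have h1 := WW_mul hq ((k + 1) * m) m
    have h2 := WW_nonneg hq m
    have e : (k + 1 + 1) * m = (k + 1) * m + m := by ring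
    rw [pow_succ, e]
    calc (q * WW q m) ^ (k + 1) * (q * WW q m) ≤ (q * WW q ((k + 1) * m)) * (q * WW q m) :=
          mul_le_mul_of_nonneg_right ih (mul_nonneg hq h2)
      _ = q * (q * (WW q ((k + 1) * m) * WW q m)) := by ring
      _ ≤ _ := mul_le_mul_of_nonneg_left h1 hq

/-- the bound inside the disc of convergence -/
theorem WW_le {q r B : ℝ} (hq : 0 ≤ q) (hr : 0 ≤ r)
    (hB : ∀ m : ℕ, WW q m * r ^ m ≤ B * ((m : ℝ) + 1)) (m : ℕ) : q * WW q m * r ^ m ≤ 1 := by
  by_contra hcon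
  push Not at hcon
  obtain ⟨x, hx⟩ : ∃ x, x = q * WW q m * r ^ m := ⟨_, rfl⟩
  rw [← hx] at hcon
  have hx0 : 0 < x := by linarith
  have h1 : ∀ k : ℕ, x ^ (k + 1) ≤ q * B * (((k + 1) * m : ℕ) + 1) := by
    intro k
    have h2 := WW_pow hq m k
    have h3 : x ^ (k + 1) ≤ q * WW q ((k + 1) * m) * r ^ ((k + 1) * m) := by
      rw [hx, mul_pow, ← pow_mul, mul_comm m (k + 1)]
      exact mul_le_mul_of_nonneg_right h2 (pow_nonneg hr _)
    refine h3.trans ?_
    rw [mul_assoc, mul_assoc]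
    exact mul_le_mul_of_nonneg_left (hB _) hq
  have h2 : Tendsto (fun k : ℕ => (q * B * (((k + 1) * m : ℕ) + 1)) * (x⁻¹) ^ (k + 1)) atTop
      (𝓝 0) := by
    have hlt : x⁻¹ < 1 := inv_lt_one_of_one_lt₀ hcon
    have h3 := tendsto_self_mul_const_pow_of_lt_one (inv_nonneg.2 hx0.le) hlt
    have h4 := tendsto_pow_atTop_nhds_zero_of_lt_one (inv_nonneg.2 hx0.le) hlt
    have h5 := ((h3.const_mul (m : ℝ)).add h4).const_mul (q * B)
    rw [mul_zero, zero_add, mul_zero] at h5
    refine ((tendsto_add_atTop_iff_nat 1).2 h5).congr fun k => ?_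
    push_cast
    ring
  have h3 : ∀ k : ℕ, (1 : ℝ) ≤ (q * B * (((k + 1) * m : ℕ) + 1)) * (x⁻¹) ^ (k + 1) := by
    intro k
    have h4 := mul_le_mul_of_nonneg_right (h1 k) (pow_nonneg (inv_nonneg.2 hx0.le) (k + 1))
    rwa [← mul_pow, mul_inv_cancel₀ hx0.ne', one_pow] at h4
  have h4 := ge_of_tendsto' h2 h3
  linarith

end

end Pool.Agent.Helper99.DP
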