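import Pool.Agent.Helper99.DP.Jn3

/-!
# Rooted polygons and polygons up to translation
-/

set_option autoImplicit false
set_option linter.unusedVariables false

namespace Pool.Agent.Helper99.DP

open Finset Filter Topology Pool.Agent.N929.EG Pool.Agent.Helper99.AG
open TH966.AK hiding lst
open Pool.Agent.R965.HP
open scoped Classical

noncomputable section

theorem are_shift (m : ℕ) (f : ZMod m → ℤ × ℤ) (i : ZMod m) (v : ℤ × ℤ) :
    are m (fun k => f (k + i) - v) = are m f := by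
  unfold are
  refine Nat.card_congr (Equiv.subtypeEquiv (Equiv.addRight v) fun c => ?_)
  unfold Enc
  have h : Nat.card {k : ZMod m // Abv m (fun k => f (k + i) - v) c.1 c.2 k} =
      Nat.card {k : ZMod m // Abv m f (Equiv.addRight v c).1 (Equiv.addRight v c).2 k} := by
    refine Nat.card_congr (Equiv.subtypeEquiv (Equiv.addRight i) fun k => ?_)
    unfold Abv
    simp only [Equiv.coe_addRight, Prod.fst_sub, Prod.snd_sub, Prod.fst_add, Prod.snd_add]
    rw [show k + 1 + i = k + i + 1 by ring]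
    omega
  rw [h]

theorem are_rev (m : ℕ) (f : ZMod m → ℤ × ℤ) (i : ZMod m) (v : ℤ × ℤ)
    (hf : ∀ i : ZMod m, |(f (i + 1)).1 - (f i).1| + |(f (i + 1)).2 - (f i).2| = 1) :
    are m (fun k => f (i - k) - v) = are m f := by
  unfold are
  refine Nat.card_congr (Equiv.subtypeEquiv (Equiv.addRight v) fun c => ?_)
  unfold Enc
  have h : Nat.card {k : ZMod m // Abv m (fun k => f (i - k) - v) c.1 c.2 k} =
      Nat.card {k : ZMod m // Abv m f (Equiv.addRight v c).1 (Equiv.addRight v c).2 k} := by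
    refine Nat.card_congr (Equiv.subtypeEquiv (Equiv.subLeft (i - 1)) fun k => ?_)
    unfold Abv
    simp only [Equiv.coe_addRight, Equiv.subLeft_apply, Prod.fst_sub, Prod.snd_sub, Prod.fst_add,
      Prod.snd_add]
    have h1 := hf (i - 1 - k)
    rw [show i - 1 - k + 1 = i - k by ring] at h1
    rw [show i - 1 - k + 1 = i - k by ring, show i - (k + 1) = i - 1 - k by ring]
    have h2 : (f (i - k)).1 ≠ (f (i - 1 - k)).1 → (f (i - k)).2 = (f (i - 1 - k)).2 := by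
      intro h3
      have h4 : 0 < |(f (i - k)).1 - (f (i - 1 - k)).1| := abs_pos.2 (sub_ne_zero.2 h3)
      have h5 := abs_nonneg ((f (i - k)).2 - (f (i - 1 - k)).2)
      have h6 : |(f (i - k)).2 - (f (i - 1 - k)).2| = 0 := by omega
      have := abs_eq_zero.1 h6
      omega
    constructor
    · rintro ⟨h3, h4⟩
      have := h2 (by omega)
      exact ⟨by omega, by omega⟩
    · rintro ⟨h3, h4⟩
      have := h2 (by omega)
      exact ⟨by omega, by omega⟩
  rw [h]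

theorem adj_gt {x y : ℤ × ℤ} (h : |y.1 - x.1| + |y.2 - x.2| = 1)
    (hle : x.1 < y.1 ∨ (x.1 = y.1 ∧ x.2 ≤ y.2)) :
    y = x + (1, 0) ∨ y = x + (0, 1) := by
  have h1 : Sq.A y x := h
  rw [Sq.A_iff] at h1
  rcases h1 with ⟨h1, h2⟩ | ⟨h1, h2⟩ | ⟨h1, h2⟩ | ⟨h1, h2⟩
  · omega
  · left
    exact Prod.ext (by simp only [Prod.fst_add]; omega) (by simp only [Prod.snd_add]; omega)
  · omega
  · right
    exact Prod.ext (by simp only [Prod.fst_add]; omega) (by simp only [Prod.snd_add]; omega)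

/-- the rooted polygon with another root -/
def rt {m : ℕ} (g : ZMod m → ℤ × ℤ) (i : ZMod m) (b : Bool) : ZMod m → ℤ × ℤ :=
  fun k => if b then g (i - k) - g i else g (k - i) - g (-i)

theorem rot_ex {n : ℕ} (hn : 2 ≤ n) (f : ZMod (n + 1) → ℤ × ℤ) (hf : Lp (n + 1) f) :
    ∃ (g : ZMod (n + 1) → ℤ × ℤ) (i : ZMod (n + 1)) (b : Bool), Lp (n + 1) g ∧ g 1 = (0, 1) ∧
      (∀ k, 0 ≤ (g k).1 ∧ ((g k).1 = 0 → 0 ≤ (g k).2)) ∧ are (n + 1) f = are (n + 1) g ∧
      f = rt g i b := by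
  obtain ⟨h0, hinj, hadj⟩ := hf
  obtain ⟨i, -, hi⟩ := Finset.exists_min_image (univ : Finset (ZMod (n + 1)))
    (fun k => toLex (f k)) ⟨0, mem_univ _⟩
  have hmin : ∀ k, (f i).1 < (f k).1 ∨ ((f i).1 = (f k).1 ∧ (f i).2 ≤ (f k).2) := fun k => by
    have h := hi k (mem_univ _)
    rw [Prod.Lex.le_iff] at h
    exact h
  have hlex : ∀ k, 0 ≤ (f k - f i).1 ∧ ((f k - f i).1 = 0 → 0 ≤ (f k - f i).2) := fun k => by
    have h := hmin k
    rw [Prod.fst_sub, Prod.snd_sub]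
    constructor
    · omega
    · intro h1
      omega
  have n1 := adj_gt (hadj i) (hmin (i + 1))
  have h2 : |(f (i - 1)).1 - (f i).1| + |(f (i - 1)).2 - (f i).2| = 1 := by
    have h := hadj (i - 1)
    rw [sub_add_cancel, abs_sub_comm, abs_sub_comm (f i).2] at h
    exact h
  have n2 := adj_gt h2 (hmin (i - 1))
  have hne : f (i + 1) ≠ f (i - 1) := by
    intro h
    have h1 := hinj h
    have h3 : (2 : ZMod (n + 1)) = 0 := by
      have : i + 1 - (i - 1) = 0 := sub_eq_zero.2 h1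
      calc (2 : ZMod (n + 1)) = i + 1 - (i - 1) := by ring
        _ = 0 := this
    have h4 : ((2 : ℕ) : ZMod (n + 1)) = 0 := by exact_mod_cast h3
    rw [ZMod.natCast_eq_zero_iff] at h4
    have := Nat.le_of_dvd (by norm_num) h4
    omega
  by_cases hup : f (i + 1) = f i + (0, 1)
  · refine ⟨fun k => f (k + i) - f i, i, false, ⟨?_, ?_, fun k => ?_⟩, ?_, fun k => hlex _, ?_, ?_⟩
    · simp
    · intro x y hxy
      exact add_right_cancel (hinj (sub_left_injective hxy))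
    · have h := hadj (k + i)
      simp only [Prod.fst_sub, Prod.snd_sub]
      rw [show k + 1 + i = k + i + 1 by ring, sub_sub_sub_cancel_right, sub_sub_sub_cancel_right]
      exact h
    · simp only
      rw [add_comm 1 i, hup, add_sub_cancel_left]
    · exact (are_shift _ f i (f i)).symm
    · funext k
      simp only [rt, Bool.false_eq_true, if_false]
      rw [sub_add_cancel, neg_add_cancel, h0]
      abel
  · have hup2 : f (i - 1) = f i + (0, 1) := by
      rcases n1 with h | h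
      · rcases n2 with h' | h'
        · exact absurd (h.trans h'.symm) hne
        · exact h'
      · exact absurd h hup
    refine ⟨fun k => f (i - k) - f i, i, true, ⟨?_, ?_, fun k => ?_⟩, ?_, fun k => hlex _, ?_, ?_⟩
    · simp
    · intro x y hxy
      exact sub_right_injective (hinj (sub_left_injective hxy))
    · have h := hadj (i - (k + 1))
      simp only [Prod.fst_sub, Prod.snd_sub]
      rw [show i - (k + 1) + 1 = i - k by ring, abs_sub_comm, abs_sub_comm (f (i - k)).2] at h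
      rw [sub_sub_sub_cancel_right, sub_sub_sub_cancel_right]
      exact h
    · simp only
      rw [hup2, add_sub_cancel_left]
    · exact (are_rev _ f i (f i) hadj).symm
    · funext k
      simp only [rt, if_true]
      rw [sub_sub_cancel, sub_self, h0]
      abel

/-- the list of a loop -/
def oF {n : ℕ} (f : ZMod (n + 1) → ℤ × ℤ) : List (ℤ × ℤ) :=
  List.ofFn (n := n + 1) (fun i : Fin (n + 1) => f i)

theorem oF_inj {n : ℕ} : Function.Injective (oF (n := n)) := by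
  intro f g h
  have h1 : (fun i : Fin (n + 1) => f i) = (fun i : Fin (n + 1) => g i) := List.ofFn_injective h
  exact h1

theorem oF_mem {n : ℕ} {f : ZMod (n + 1) → ℤ × ℤ} {x : ℤ × ℤ} (h : x ∈ oF f) :
    ∃ k : ZMod (n + 1), f k = x := by
  have h1 : ∀ F : Fin (n + 1) → ℤ × ℤ, x ∈ List.ofFn F → ∃ k, F k = x := fun F hF =>
    List.mem_ofFn.1 hF
  exact h1 _ h

theorem oF_cons {k : ℕ} (f : ZMod (k + 2) → ℤ × ℤ) : ∃ t, oF (n := k + 1) f = f 0 :: f 1 :: t := by
  have h1 : ∀ F : Fin (k + 2) → ℤ × ℤ, ∃ t, List.ofFn F = F 0 :: F 1 :: t := fun F => by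
    refine ⟨List.ofFn fun i : Fin k => F i.succ.succ, ?_⟩
    rw [List.ofFn_succ, List.ofFn_succ]
    rfl
  exact h1 _

theorem oF_K {n : ℕ} {f : ZMod (n + 1) → ℤ × ℤ} (hf : Lp (n + 1) f) :
    oF f ∈ Kw Sq.A n ∧ Sq.A (lst (oF f)) 0 ∧ arl (oF f) = are (n + 1) f := by
  have h2 := (lp_iff (n := n) f).1 hf
  refine ⟨?_, ?_, ?_⟩
  · have : oF f ∈ (Kw Sq.A n : Set (List (ℤ × ℤ))) := by
      rw [← image_wks Sq.rule]
      exact ⟨fun i : Fin (n + 1) => f i, h2.1, rfl⟩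
    exact mem_coe.1 this
  · have : lst (oF f) = f (Fin.last n) := lst_ofFn (fun i : Fin (n + 1) => f i)
    rw [this]
    exact h2.2
  · exact (are_eq (fun i : Fin (n + 1) => f i) hf.1).symm

theorem K_oF {n : ℕ} {w : List (ℤ × ℤ)} (hw : w ∈ Kw Sq.A n) (hc : Sq.A (lst w) 0) :
    ∃ f : ZMod (n + 1) → ℤ × ℤ, Lp (n + 1) f ∧ oF f = w := by
  have hK : w ∈ (Kw Sq.A n : Set (List (ℤ × ℤ))) := mem_coe.2 hw
  rw [← image_wks Sq.rule] at hK
  obtain ⟨f, hf, rfl⟩ := hK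
  refine ⟨f, (lp_iff (n := n) f).2 ⟨hf, ?_⟩, rfl⟩
  have h : lst (List.ofFn f) = f (Fin.last n) := lst_ofFn f
  rw [← h]
  exact hc

theorem fin_loops (n : ℕ) : {f : ZMod (n + 1) → ℤ × ℤ | Lp (n + 1) f}.Finite := by
  refine Set.Finite.of_finite_image (f := oF (n := n)) ?_ oF_inj.injOn
  refine (Kw Sq.A n).finite_toSet.subset ?_
  rintro w ⟨f, hf, rfl⟩
  exact mem_coe.2 (oF_K hf).1

theorem can_ofFn {n : ℕ} (hn : 3 ≤ n) (g : ZMod (n + 1) → ℤ × ℤ) (hg : Lp (n + 1) g)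
    (h1 : g 1 = (0, 1)) (hl : ∀ k, 0 ≤ (g k).1 ∧ ((g k).1 = 0 → 0 ≤ (g k).2)) :
    oF g ∈ CN (n + 1) ∧ arl (oF g) = are (n + 1) g := by
  obtain ⟨h3, h2, h6⟩ := oF_K hg
  obtain ⟨h4, h5⟩ := Sq.rule.mem_K.1 h3
  refine ⟨mem_CN.2 ⟨⟨h5, h2, by omega, ?_, ?_⟩, h4⟩, h6⟩
  · obtain ⟨k, rfl⟩ : ∃ k, n = k + 1 := ⟨n - 1, by omega⟩
    obtain ⟨t, ht⟩ := oF_cons (k := k) g
    refine ⟨t, ?_⟩
    rw [ht, h1]
    have h0 : g 0 = (0, 0) := hg.1
    have h0' : g (0 : ZMod (k + 2)) = (0, 0) := h0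
    rw [h0']
  · intro x hx
    obtain ⟨k, rfl⟩ := oF_mem hx
    exact hl k

/-- loops and polygons -/
theorem loops_le {n : ℕ} (hn : 3 ≤ n) {q : ℝ} (hq : 0 ≤ q) :
    ∑ᶠ f ∈ {f : ZMod (n + 1) → ℤ × ℤ | Lp (n + 1) f}, q ^ are (n + 1) f ≤
      2 * ((n : ℝ) + 1) * WW q (n + 1) := by
  have hfin := fin_loops n
  rw [finsum_mem_eq_finite_toFinset_sum _ hfin]
  choose! G I B h1 h2 h3 h4 h5 using fun (f : ZMod (n + 1) → ℤ × ℤ) (hf : Lp (n + 1) f) =>
    rot_ex (by omega : 2 ≤ n) f hf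
  have e1 : ∑ f ∈ hfin.toFinset, q ^ are (n + 1) f = ∑ f ∈ hfin.toFinset,
      (fun x : List (ℤ × ℤ) × ZMod (n + 1) × Bool => q ^ arl x.1) (oF (G f), I f, B f) := by
    refine sum_congr rfl fun f hf => ?_
    have hf' : Lp (n + 1) f := hfin.mem_toFinset.1 hf
    simp only
    rw [(can_ofFn hn (G f) (h1 f hf') (h2 f hf') (h3 f hf')).2, h4 f hf']
  have hinj : Set.InjOn (fun f : ZMod (n + 1) → ℤ × ℤ =>
      ((oF (G f), I f, B f) : List (ℤ × ℤ) × ZMod (n + 1) × Bool))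
      (hfin.toFinset : Set (ZMod (n + 1) → ℤ × ℤ)) := by
    intro f hf f' hf' hff
    have k1 : Lp (n + 1) f := hfin.mem_toFinset.1 hf
    have k2 : Lp (n + 1) f' := hfin.mem_toFinset.1 hf'
    simp only [Prod.mk.injEq] at hff
    have k3 : G f = G f' := oF_inj hff.1
    rw [h5 f k1, h5 f' k2, k3, hff.2.1, hff.2.2]
  rw [e1, ← sum_image (f := fun x : List (ℤ × ℤ) × ZMod (n + 1) × Bool => q ^ arl x.1) hinj]
  have hsub : (hfin.toFinset.image fun f : ZMod (n + 1) → ℤ × ℤ =>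
      ((oF (G f), I f, B f) : List (ℤ × ℤ) × ZMod (n + 1) × Bool)) ⊆
      CN (n + 1) ×ˢ (univ : Finset (ZMod (n + 1) × Bool)) := by
    intro x hx
    rw [mem_image] at hx
    obtain ⟨f, hf, rfl⟩ := hx
    have hf' : Lp (n + 1) f := hfin.mem_toFinset.1 hf
    exact mem_product.2 ⟨(can_ofFn hn (G f) (h1 f hf') (h2 f hf') (h3 f hf')).1, mem_univ _⟩
  refine (sum_le_sum_of_subset_of_nonneg hsub fun _ _ _ => pow_nonneg hq _).trans (le_of_eq ?_)
  rw [sum_product]
  simp only [sum_const, card_univ, Fintype.card_prod, ZMod.card, Fintype.card_bool, nsmul_eq_mul]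
  unfold WW
  rw [mul_sum]
  refine sum_congr rfl fun w _ => ?_
  push_cast
  ring

theorem le_loops {n : ℕ} {q : ℝ} (hq : 0 ≤ q) :
    WW q (n + 1) ≤ ∑ᶠ f ∈ {f : ZMod (n + 1) → ℤ × ℤ | Lp (n + 1) f}, q ^ are (n + 1) f := by
  have hfin := fin_loops n
  rw [finsum_mem_eq_finite_toFinset_sum _ hfin]
  have e : ∑ f ∈ hfin.toFinset, q ^ are (n + 1) f =
      ∑ w ∈ hfin.toFinset.image oF, q ^ arl w := by
    rw [sum_image oF_inj.injOn]
    refine sum_congr rfl fun f hf => ?_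
    have hf' : Lp (n + 1) f := hfin.mem_toFinset.1 hf
    rw [(oF_K hf').2.2]
  rw [e]
  unfold WW
  refine sum_le_sum_of_subset_of_nonneg ?_ fun _ _ _ => pow_nonneg hq _
  intro w hw
  obtain ⟨hc, hl⟩ := mem_CN.1 hw
  obtain ⟨f, hf, hfw⟩ := K_oF (Sq.rule.mem_K.2 ⟨hl, hc.walk⟩) hc.cl
  rw [mem_image]
  exact ⟨f, hfin.mem_toFinset.2 hf, hfw⟩

end

end Pool.Agent.Helper99.DP
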